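import Pool.Agent.OPH.StmtsB

/-!
# Squad LGD (MP_5f6ee5_nt): the Legendre form, all integers between consecutive squares

Goal: there are `c > 0` and `C` such that for EVERY `n ≥ 1` at least `c n / (log 2n)^C` integers `m` with
`n² < m < (n+1)²` have `Ω(m)` odd. Hence the same for each half `((2k-1)², (2k)²)`, `((2k)², (2k+1)²)` of the
interval of the problem. Same skeleton as the squads OPG, OPH (odd integers between consecutive odd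
squares); the rows are the rows of OPG / OPH with step `1` instead of `2`, `(M+1)²` and `M²` in place of `(M+1)²`
and `(M-1)²`; the model file of every row is named in its docstring: COPY IT AND ADAPT. Reused without change:
BAD, GAP, PTE LGX EXT STA END SCA GR2 ORD, DV2.

DELIVER: `Pool/Agent/HelperNN_LGD/XXX.lean`, `import Pool.Agent.LGD.Stmts`, namespace `Pool.Agent.LGD.HNN`,
theorem `xxx (hypotheses = the statements in the column uses, in this order) : XxxStmt`.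
No straight double quotes, no `sorry`.
-/

set_option autoImplicit false

namespace Pool.Agent.LGD

open Finset

/-! ### Definitions -/

/-- `f` is completely multiplicative on the positive integers, with values `±1`. -/
def PM (f : ℕ → ℤˣ) : Prop := ∀ a b : ℕ, 0 < a → 0 < b → f (a * b) = f a * f b

/-- The `m` strictly between `M²` and `(M+1)²` with `f m = e`. -/
def NS (f : ℕ → ℤˣ) (e : ℤˣ) (M : ℕ) : Finset ℕ :=
  (Finset.Ioo (M ^ 2) ((M + 1) ^ 2)).filter (fun m => f m = e)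

/-- The sum of the numbers of divisors of the elements of `NS f e M`. -/
def DS (f : ℕ → ℤˣ) (e : ℤˣ) (M : ℕ) : ℕ := ∑ m ∈ NS f e M, m.divisors.card

/-- The changes of `f` in `[a, b]`. -/
def CH (f : ℕ → ℤˣ) (a b : ℕ) : Finset ℕ := (Finset.Icc a b).filter (fun u => f u ≠ f (u + 1))

/-- `u` is a cut: no `v` has both `u v` and `(u + 1) v` strictly between `M²` and `(M+1)²`. -/
def Cut (M u : ℕ) : Prop := ∀ v : ℕ, M ^ 2 < u * v → (M + 1) ^ 2 ≤ (u + 1) * v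

open Classical in
/-- The cuts in `[a, b]`. -/
noncomputable def CU (M a b : ℕ) : Finset ℕ := (Finset.Icc a b).filter (fun u => Cut M u)

/-- `u` in the window `[M+A, M+2A]` with a number `t` such that `e = (u - M)² - t u` satisfies
`0 ≤ e ≤ t`. Every cut has such a `t` (row CT1). -/
def TT (M A u t : ℤ) : Prop :=
  M + A ≤ u ∧ u ≤ M + 2 * A ∧ t * u ≤ (u - M) ^ 2 ∧ (u - M) ^ 2 ≤ t * u + t

/-! ### Changes and cuts -/

/-- ROW CHG (easy; model `Pool/Agent/Helper68_OPG/CHG.lean`). Every change is a cut or gives an element of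
`NS f e M`.
PROOF. Let `u ≥ 1` be a change and not a cut: there is a `v` with `M² < u v` (so `u, v ≥ 1`) and
`(u+1) v < (M+1)²`. Both `u v` and `(u+1) v` are strictly between `M²` and `(M+1)²`, and
`f (u v) = f u * f v ≠ f (u+1) * f v = f ((u+1) v)`, so one of the two numbers, `m`, is in `NS f e M`, and
`u` or `u + 1` is a divisor of it. -/
def ChgStmt : Prop := ∀ (f : ℕ → ℤˣ) (e : ℤˣ) (M a b : ℕ), PM f → 1 ≤ a →
  (CH f a b).card ≤ (CU M a b).card + 2 * DS f e M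

/-- ROW CT1 (easy; model `Pool/Agent/Helper72_OPG/CT1.lean`). A cut has a `t` as in `TT`.
PROOF. `q = M² / u`, `v = q + 1`: `M² < u v`, `u q ≤ M²`, so `(M+1)² ≤ (u+1)(q+1)`. Put `t = u + q - 2M`. Then
`M² - u q = (u - M)² - t u` (ring) is `≥ 0`, and `(u+1)(q+1) = (M+1)² - ((u-M)² - t u) + t` (ring), so it
is `≤ t`. -/
def Ct1Stmt : Prop := ∀ (M u : ℕ), 1 ≤ u → Cut M u →
  ∃ t : ℤ, t * u ≤ ((u : ℤ) - M) ^ 2 ∧ ((u : ℤ) - M) ^ 2 ≤ t * u + t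

/-- ROW CT2 (medium; model `Pool/Agent/Helper15_OPG/CT2.lean`). Algebra of two cuts and of two pairs of cuts.
PROOF. Put `α = u - M ∈ [A, 2A]`, `e = α² - t u`, `0 ≤ e ≤ t`. (1) `t ≥ 0`, and
`t A S ≤ t M ≤ t u ≤ 4 A²` gives `t S ≤ 4 A` (so `20 t ≤ A`, `20 e ≤ A`).
(2) For `(u,t)`, `(u+d, t+h)`, `d ≥ 1`: `h u = d (2α + d - (t+h)) - (e₂ - e₁)` (ring; `α₂ = α + d`), and
`2A ≤ 2α + d ≤ 4A`, so `38 d A ≤ 20 h u ≤ 81 d A`; with `A S ≤ u`, `100 u ≤ 103 A S`: `d ≤ h S ≤ 5 d`.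
(3) For two pairs `(u,t),(u+d,t+h)` and `(v,r),(v+d,r+h)`, `v < u`: subtract the two
identities: `(2d - h)(u - v) - d (t - r) = (e₂ - e₁) - (e₂' - e₁') ≤ 2 * (10 A / S)`. By (2)
`h ≤ 5 d / S ≤ d/20` and `t - r ≤ 5 (u - v)/S ≤ (u-v)/20`, so `1.9 d (u - v) ≤ 20 A / S`. -/
def Ct2Stmt : Prop := ∀ (M A S : ℤ), 100 ≤ A → 100 ≤ S → A * S ≤ M → M < (A + 1) * S →
  (∀ u t, TT M A u t → 0 ≤ t ∧ t * S ≤ 5 * A) ∧
  (∀ u t d h, 1 ≤ d → TT M A u t → TT M A (u + d) (t + h) → d ≤ h * S ∧ h * S ≤ 5 * d) ∧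
  (∀ u t v r d h, 1 ≤ d → v + 1 ≤ u → TT M A u t → TT M A (u + d) (t + h) → TT M A v r →
    TT M A (v + d) (r + h) → (u - v) * d * S ≤ 11 * A)

/-- ROW CT3 (easy-medium, uses CT1 CT2 OPG.GapStmt; model `Pool/Agent/Helper1_OPG/CT3.lean`: only the places where
oddness gives `v + 2 ≤ u` change). Number of cuts in the window, `S = s²`. -/
def Ct3Stmt : Prop := ∀ (M A s : ℕ), 100 ≤ A → 10 ≤ s → A * s ^ 2 ≤ M →
  M < (A + 1) * s ^ 2 →
  ((CU M (M + A) (M + 2 * A)).card : ℝ) ≤ 1 + (s : ℝ) ^ 4 + 280 * A / (s : ℝ) ^ 3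

/-! ### The path -/

/-- ROW PTL (easy-medium, uses OPH.Gr2Stmt OPH.OrdStmt; model `Pool/Agent/Helper67_OPH/PT2.lean`, only the last ratio
`(1, n₁)` is not odd). A path of polylogarithmic length which returns to `1` up to `1/M`. -/
def PtlStmt : Prop := ∀ n1 : ℕ, 1 ≤ n1 → ∃ C : ℕ, 1 ≤ C ∧ ∀ M : ℕ, C ≤ M →
  ∃ (J : ℕ) (p q : ℕ → ℕ) (c : ℕ → ℝ), J ≤ (Nat.log 2 M) ^ C ∧
    (∀ i < J, 0 < p i ∧ 0 < q i ∧ p i ≤ (Nat.log 2 M) ^ C ∧ q i ≤ (Nat.log 2 M) ^ C) ∧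
    c 0 = 1 ∧ (∀ i < J, c (i + 1) * q i = c i * p i) ∧
    (∀ i ≤ J, 1 / ((Nat.log 2 M : ℝ) ^ C) ≤ c i ∧ c i ≤ (Nat.log 2 M : ℝ) ^ C) ∧
    |c J - 1| ≤ 1 / (M : ℝ) ∧
    (∀ f : ℕ → ℤˣ, PM f → f n1 = -1 → ∏ i ∈ range J, (f (p i) * f (q i)) = -1)

/-- ROW TEL (easy; model `Pool/Agent/Helper27_OPG/TEL.lean`: replace `exists_odd_near` by a positive integer within `1` of
`x ≥ 0`, for instance `⌊x⌋₊ + 1`). Telescoping along the path. -/
def TelStmt : Prop := ∀ (f : ℕ → ℤˣ) (J H : ℕ) (p q g : ℕ → ℕ) (c : ℕ → ℝ) (Q Y0 : ℝ)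
  (σ : ℕ → ℤˣ), PM f → 1 ≤ Q → 0 < Y0 →
  (∀ i < J, 0 < p i ∧ 0 < q i) → (∀ i ≤ J, 0 < g i) → g 0 = H → g J = H →
  c 0 = 1 → (∀ i ≤ J, 0 < c i) → (∀ i < J, c (i + 1) * q i = c i * p i) →
  (∀ i < J, (p i : ℝ) * g i ≤ Q ∧ (q i : ℝ) * g (i + 1) ≤ Q) →
  |c J * H / g J * Y0 - Y0| ≤ Q →
  (∀ i ≤ J, ∀ n : ℕ, 0 < n → |(n : ℝ) - c i * H / g i * Y0| ≤ 4 * Q → f n = σ i) →
  ∏ i ∈ range J, (f (p i) * f (q i)) = 1

/-- ROW GDB (easy; model `Pool/Agent/Helper66_OPG/GDB.lean`). No change near `Y`. -/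
def GdbStmt : Prop := ∀ (f : ℕ → ℤˣ) (a b : ℕ) (Q Y : ℝ), (a : ℝ) ≤ Y - 4 * Q →
  Y + 4 * Q ≤ b → (∀ u ∈ CH f a b, 4 * Q < |(u : ℝ) - Y|) →
  ∃ σ : ℤˣ, ∀ n : ℕ, |(n : ℝ) - Y| ≤ 4 * Q → f n = σ

/-- ROW PAT (medium, uses PTL TEL GDB OPG.BadStmt; model `Pool/Agent/Helper72_OPG/PA2.lean`: `g i` can stay odd, then it is
positive). The number of changes in the window. -/
def PatStmt : Prop := ∀ n1 : ℕ, 1 ≤ n1 → ∃ C D : ℕ, 1 ≤ C ∧
  ∀ (P M A : ℕ) (f : ℕ → ℤˣ), D ≤ M → P = 2 * (Nat.log 2 M) ^ C + 1 →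
  A * P ^ 10 ≤ M → M < (A + 1) * P ^ 10 →
  PM f → f n1 = -1 → A ≤ 2040 * P ^ 14 * (CH f (M + A) (M + 2 * A)).card

/-! ### The end -/

/-- ROW MAI (easy-medium, uses CHG CT3 PAT; model `Pool/Agent/Helper72_OPH/MA2.lean`). The main inequality. -/
def MaiStmt : Prop := ∀ n1 : ℕ, 1 ≤ n1 → ∃ C : ℕ, 1 ≤ C ∧
  ∀ (M : ℕ) (f : ℕ → ℤˣ) (e : ℤˣ), C ≤ M → PM f → f n1 = -1 →
  M ≤ C * (Nat.log 2 M) ^ C * DS f e M

/-- ROW FIN (easy-medium, uses MAI OPH.Dv2Stmt; model `Pool/Agent/Helper77_OPH/FI2.lean`). Cauchy-Schwarz. For the second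
moment use DV2 with `M + 1`: `(M², (M+1)²)` is contained in `((M+1-1)², (M+1+1)²)`, and
`Nat.log 2 (M+1) ≤ 2 * Nat.log 2 M` for `M ≥ 2`. -/
def FinStmt : Prop := ∀ n1 : ℕ, 1 ≤ n1 → ∃ C : ℕ, 1 ≤ C ∧
  ∀ (M : ℕ) (f : ℕ → ℤˣ) (e : ℤˣ), C ≤ M → PM f → f n1 = -1 →
  M ≤ C * (Nat.log 2 M) ^ C * (NS f e M).card

/-- ROW SMA (medium, no hypotheses). One `m` with `Ω(m)` odd, every `n ≥ 1` (known: Kaplansky, Granville - Selfridge).
PROOF. `f m = (-1)^Ω(m)`; suppose `f = 1` on `[n², (n+1)²]` (at the two end points it is `1` because they are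
squares). (1) For `a ≥ 0` with `a (a - 1) ≤ n` (integers) and `a ≤ n` put `u = n + a`, `v = n + 1 - a`: `u v = n² + n - a(a-1)` and
`(u+1) v = (n+1)² - a²` are in the interval, so `f u = f (u+1)`, and `f v = f u`. For `a (a - 1) > n`, `(a-1)² ≤ 2n + 1` put
`v = n + 2 - a`: `u v = (n+1)² - (a-1)² ≥ n²`, `(u+1) v = (n+1)² + n + 1 - a(a-1) ≤ (n+1)²`: `f u = f (u+1)`, `f v = f u`. So `f` is constant,
`= f n`, on all integers `x` with `|x - n| ≤ r` where `(r-1)² ≤ 2n + 1` (for `x < n` use the `v`).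
(2) For every `p` with `n ≤ 2 p² ≤ 4 n` or so (`z/√2 ≤ p ≤ √2 z`, `z = √n`) there is a `q` with `p q ≥ n - r` and `(p+1) q ≤ n + r`:
the interval `[(n-r)/p, (n+r)/(p+1)]` has length `≥ 1` as `2 r p + r - n ≥ p (p+1)`. So
`f p f q = f (p q) = f ((p+1) q) = f (p+1) f q`, `f p = f (p+1)`. With `p₀ = ⌈√(n/2)⌉`, `f p₀ = f (2 p₀) = f 2 f p₀`, `f 2 = 1`: contradiction.
(3) This works for `n ≥ n₀` (about `100`); the small `n` by `decide`/`norm_num` on a table, for instance primes: for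
`n < n₀` give a prime in `(n², (n+1)²)`. -/
def SmaStmt : Prop := ∀ n : ℕ, 1 ≤ n → ∃ m : ℕ, n ^ 2 < m ∧ m < (n + 1) ^ 2 ∧
  Odd (ArithmeticFunction.cardFactors m)

/-- ROW RES (easy-medium, uses FIN SMA; model `Pool/Agent/Helper68_OPH/RE2.lean`). The final theorem, `n₁ = 2`. -/
def ResStmt : Prop := ∃ (c : ℝ) (C : ℕ), 0 < c ∧ ∀ n : ℕ, 1 ≤ n →
  c * (n : ℝ) / (Real.log (2 * n)) ^ C ≤
    (((Ioo (n ^ 2) ((n + 1) ^ 2)).filter
      (fun m => Odd (ArithmeticFunction.cardFactors m))).card : ℝ)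

end Pool.Agent.LGD
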